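import Mathlib
import Pool.Agent.H742R3.Mat4

/-!
# The edge-deletion sequence for matching complexes is split exact (all `n ≥ 3`, all `d`)

Let `M_n` be the matching complex of `[n]`, `e = {a, b}` an edge.  We prove that

`0 → H̃_d(M_n \ e; ℤ) → H̃_d(M_n; ℤ) → H̃_{d-1}(L_e; ℤ) → 0`,  `L_e = M([n] \ {a,b})`,

is split exact.  The reason is a chain homotopy from the inclusion
`C_*(L_e) → C_*(M_n \ e)` to zero: fix `v ≠ a, b` and put

`W z = ∑_{x ≠ a, v} {x,v} ∧ P_x (v b) z - ∑_{x ≠ a, b, v} {x,a} ∧ (x v) (v b) z`,

where `(x y)` is the action of a transposition and `P_x` kills the simplices which cover `x`.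
Then `∂ W + W ∂ = 1` on `C_*(L_e)`.
-/

set_option autoImplicit false

namespace Pool.Agent.Results.MP_728c4a_co.SplitExact

open Pool.Agent.H742R3.Mat

/-- For `n ≥ 3`, an edge `e = {a, b}` of `[n]`, and every integer `d`:
the link of `e` in the matching complex `M_n` is the matching complex of `[n] \ {a, b}`, and the
sequence `0 → H̃_d(M_n \ e) → H̃_d(M_n) → H̃_{d-1}(L_e) → 0` (inclusion, and passage to the relative
homology identified with the homology of the link) is exact, and the group in the middle is the
direct sum of the outer two, compatibly with the maps. The chain groups use the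
orientation given by an arbitrary linear order of the vertices (edges of `K_n`). -/
theorem result (n : ℕ) (hn : 3 ≤ n) (a b : Fin n) (hab : a ≠ b)
    [lo : LinearOrder (Finset (Fin n))] (d : ℤ) :
    link (Mn n) {a, b} = matchings (Finset.univ \ {a, b}) ∧
      DeletionSequenceSplit (Mn n) {a, b} d :=
  main2 n hn a b hab d

end Pool.Agent.Results.MP_728c4a_co.SplitExact
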